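import Pool.Agent.W931.LC.Props

set_option autoImplicit false

/-!
# Project LC: the generalized continuum hypothesis in the extension
-/

namespace Pool.Agent.W701.LC

open Cardinal Pool.Agent.Helper669.Forcing Pool.Agent.Helper669.K Pool.Agent.Helper669.U
  Pool.Agent.Helper669.V Pool.Agent.W931.KH Pool.Agent.W931.LC

/-- `CollapsedTo` is monotone in the first cardinal. -/
theorem collapsed_mono {P : Type} [Preorder P] {μ ν κ : Cardinal.{0}} (hμ : μ ≠ 0) (h : μ ≤ ν)
    {p : P} (hp : p ∈ CollapsedTo P μ κ) : p ∈ CollapsedTo P ν κ := by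
  intro ρ hρ
  have h1 := hp ρ hρ
  rw [mem_fex] at h1 ⊢
  intro q hq
  obtain ⟨r, hr, R, hR1, hR2⟩ := h1 q hq
  have hne : Nonempty μ.ord.ToType := by
    rw [← Cardinal.mk_ne_zero_iff, mk_ord_toType]
    exact hμ
  have hinj : ∃ f : μ.ord.ToType → ν.ord.ToType, Function.Injective f := by
    have : #μ.ord.ToType ≤ #ν.ord.ToType := by
      rw [mk_ord_toType, mk_ord_toType]
      exact h
    obtain ⟨f⟩ := this
    exact ⟨f, f.injective⟩
  obtain ⟨f, hf⟩ := hinj
  have hsurj : ∀ x, ∃ y, Function.invFun f y = x := fun x => ⟨f x, Function.leftInverse_invFun hf x⟩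
  refine ⟨r, hr, fun x y => R (Function.invFun f x) y, ?_, ?_⟩
  · intro x y y'
    exact hR1 (Function.invFun f x) y y'
  · intro y
    have h2 := hR2 y
    rw [mem_fex] at h2 ⊢
    intro s hs
    obtain ⟨t, ht, x, hx⟩ := h2 s hs
    obtain ⟨z, hz⟩ := hsurj x
    refine ⟨t, ht, z, ?_⟩
    show t ∈ meets (R (Function.invFun f z) y)
    rw [hz]
    exact hx

/-- Ground model surjections. -/
theorem collapsed_succ {P : Type} [Preorder P] (ν : Cardinal.{0}) (p : P) :
    p ∈ CollapsedTo P ν (Order.succ ν) := by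
  intro ρ hρ
  have h1 : ρ ≤ ν := Order.le_of_lt_succ hρ
  have hinj : ∃ f : ρ.out → ν.ord.ToType, Function.Injective f := by
    have : #ρ.out ≤ #ν.ord.ToType := by
      rw [mk_ord_toType, Cardinal.mk_out]
      exact h1
    obtain ⟨f⟩ := this
    exact ⟨f, f.injective⟩
  obtain ⟨f, hf⟩ := hinj
  rw [mem_fex]
  intro q hq
  refine ⟨q, le_rfl, fun x y => {_r | f y = x}, ?_, ?_⟩
  · intro x y y'
    rw [mem_fimp]
    intro r hr hm
    refine ⟨r, le_rfl, ?_⟩
    obtain ⟨hm1, hm2⟩ := hm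
    obtain ⟨s, _, t, ht, _⟩ := hm1 r le_rfl
    obtain ⟨s', _, t', ht', _⟩ := hm2 r le_rfl
    have e1 : f y = x := ht
    have e2 : f y' = x := ht'
    exact hf (e1.trans e2.symm)
  · intro y
    rw [mem_fex]
    intro r hr
    refine ⟨r, le_rfl, f y, ?_⟩
    exact meets_of_mem (show f y = f y from rfl)

theorem tGCH (h1 : S_POW1) (h2 : S_POW2) (h3 : S_POW3) (h4 : S_POW4) (h5 : S_POW5)
    (h6 : S_POW6) (h7 : S_COL) : S_GCH := by
  intro hG Q p ν hν
  have key : ∃ μ : Cardinal.{0}, ∀ q : Q.Cd, q ∈ PowOnto Q.Cd ν μ ∧ q ∈ CollapsedTo Q.Cd ν μ := by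
    rcases lt_trichotomy ν Q.top with hlt | heq | hgt
    · -- `ν < top`
      have hex : ∃ j, ν < Q.ka j := Q.exists_lt_ka hlt
      obtain ⟨j, hj, hmin⟩ := WellFounded.has_min (wellFounded_lt (α := I)) {j | ν < Q.ka j} hex
      have hj' : ν < Q.ka j := hj
      have hmin' : ∀ i < j, Q.ka i ≤ ν := by
        intro i hi
        by_contra hcon
        push Not at hcon
        exact hmin i hcon hi
      by_cases hmu : Q.mu j ≤ ν
      · refine ⟨Q.ka j, fun q => ⟨h1 hG Q j ν hmu hj' q, ?_⟩⟩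
        refine collapsed_mono ?_ hmu (h7 Q j q)
        exact (aleph0_pos.trans_le (Q.aleph0_le_mu j)).ne'
      · push Not at hmu
        refine ⟨Order.succ ν, fun q => ⟨?_, collapsed_succ ν q⟩⟩
        rcases lt_trichotomy ν (Q.lam j) with hl | hl | hl
        · -- `ν < lam j`
          have hsup : (⨆ i : Set.Iio j, Q.ka i) ≤ ν := by
            apply ciSup_le'
            intro i
            exact hmin' i.1 i.2
          have hν1 : ν < ℵ₁ := by
            unfold Pool.Agent.W931.LC.Par.lam at hl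
            rcases lt_max_iff.1 hl with h | h
            · exact h
            · exact absurd h (not_lt.2 hsup)
          exact h6 hG Q ν hν (fun i => (hν1.trans_le (Q.lam_ge i)).trans (Q.lam_lt_mu i)) q
        · rw [hl]
          exact h3 hG Q j q
        · exact h2 hG Q j ν (Order.succ_le_of_lt hl) hmu q
    · refine ⟨Order.succ ν, fun q => ⟨?_, collapsed_succ ν q⟩⟩
      rw [heq]
      exact h4 hG Q q
    · exact ⟨Order.succ ν, fun q => ⟨h5 hG Q ν (Order.succ_le_of_lt hgt) q, collapsed_succ ν q⟩⟩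
  obtain ⟨μ, hμ⟩ := key
  rw [mem_fex]
  intro q _
  exact ⟨q, le_rfl, μ, (hμ q).1, (hμ q).2⟩

end Pool.Agent.W701.LC
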